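import Pool.Agent.Work.MP_f25c59_an.Defs

set_option autoImplicit false

namespace Pool.Agent.Work.MP_f25c59_an.Hedge

/-- The metric approximation property of the quasi-normed space `(X, N)`. -/
def HasMAP {X : Type} [AddCommGroup X] [Module ℝ X] (N : X → ℝ) : Prop :=
  ∀ K : Set X, IsCompactFor N K → ∀ ε : ℝ, 0 < ε → ∃ T : X →ₗ[ℝ] X,
    (∀ x, N (T x) ≤ N x) ∧ FiniteDimensional ℝ (LinearMap.range T) ∧
    ∀ x ∈ K, N (T x - x) < ε

end Pool.Agent.Work.MP_f25c59_an.Hedge
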