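import Pool.Agent.Work.MP_f25c59_an.Free
import Pool.Agent.Work.MP_f25c59_an.Hedge.Defs

-- merged part: Pool.Agent.Work.MP_f25c59_an.Hedge.Basic
section
/-!
Slow cutoffs and collapsing operators on a Lipschitz free `p`-space, written for the group norm
given by the `p`-th power of the `p`-norm.
-/

set_option autoImplicit false

namespace Pool.Agent.Work.MP_f25c59_an.Hedge

open Filter Topology Metric Set

/-- A slow cutoff. -/
lemma exists_cut {η : ℝ} (hη : 0 < η) : ∃ c : ℝ, 1 ≤ c ∧ ∀ r : ℝ, 0 < r → ∃ g : ℝ → ℝ,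
    (∀ t, 0 ≤ g t) ∧ (∀ t, g t ≤ 1) ∧ (∀ t, t ≤ r → g t = 0) ∧ (∀ t, c * r ≤ t → g t = 1) ∧
    ∀ s t, 0 ≤ s → s ≤ t → |g t - g s| * s ≤ η * (t - s) := by
  have hc : 1 ≤ Real.exp (1 / η) := Real.one_le_exp (by positivity)
  refine ⟨Real.exp (1 / η), hc, fun r hr => ⟨fun t => min 1 (η * Real.log (max t r / r)),
    ?_, ?_, ?_, ?_, ?_⟩⟩
  · intro t
    refine le_min zero_le_one (mul_nonneg hη.le (Real.log_nonneg ?_))
    rw [le_div_iff₀ hr, one_mul]
    exact le_max_right _ _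
  · intro t
    exact min_le_left _ _
  · intro t ht
    simp only [max_eq_right ht, div_self hr.ne', Real.log_one, mul_zero]
    exact min_eq_right zero_le_one
  · intro t ht
    refine min_eq_left ?_
    have h1 : Real.exp (1 / η) ≤ max t r / r := by
      rw [le_div_iff₀ hr]
      exact le_trans ht (le_max_left _ _)
    have h2 := Real.log_le_log (Real.exp_pos _) h1
    rw [Real.log_exp] at h2
    have h3 := mul_le_mul_of_nonneg_left h2 hη.le
    rwa [mul_one_div_cancel hη.ne'] at h3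
  · intro s t hs hst
    have ha : 0 < max s r := lt_of_lt_of_le hr (le_max_right _ _)
    have hb : 0 < max t r := lt_of_lt_of_le hr (le_max_right _ _)
    have hab : max s r ≤ max t r := max_le_max hst le_rfl
    have hd : max t r - max s r ≤ t - s := by
      rcases le_total t r with h | h
      · rw [max_eq_right h, max_eq_right (le_trans hst h)]; linarith
      · rw [max_eq_left h]; linarith [le_max_left s r]
    have e : Real.log (max t r / r) - Real.log (max s r / r) = Real.log (max t r / max s r) := by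
      rw [Real.log_div hb.ne' hr.ne', Real.log_div ha.ne' hr.ne', Real.log_div hb.ne' ha.ne']
      ring
    have h0 : 0 ≤ Real.log (max t r / max s r) :=
      Real.log_nonneg (by rw [le_div_iff₀ ha, one_mul]; exact hab)
    have h1 : Real.log (max t r / max s r) ≤ max t r / max s r - 1 :=
      Real.log_le_sub_one_of_pos (div_pos hb ha)
    have h2 : |min 1 (η * Real.log (max t r / r)) - min 1 (η * Real.log (max s r / r))| ≤
        η * Real.log (max t r / max s r) := by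
      refine le_trans (abs_min_sub_min_le_max _ _ _ _) (max_le ?_ ?_)
      · rw [sub_self, abs_zero]; exact mul_nonneg hη.le h0
      · rw [← mul_sub, e, abs_of_nonneg (mul_nonneg hη.le h0)]
    have h3 : Real.log (max t r / max s r) * max s r ≤ t - s := by
      have := mul_le_mul_of_nonneg_right h1 ha.le
      rw [sub_mul, div_mul_cancel₀ _ ha.ne', one_mul] at this
      linarith
    calc _ ≤ (η * Real.log (max t r / max s r)) * max s r :=
          mul_le_mul h2 (le_max_left _ _) hs (mul_nonneg hη.le h0)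
      _ = η * (Real.log (max t r / max s r) * max s r) := by ring
      _ ≤ η * (t - s) := mul_le_mul_of_nonneg_left h3 hη.le

variable {p : ℝ} {M : Type} [MetricSpace M] {o : M} {E : Type} [NormedAddCommGroup E]
  [Module ℝ E] {δ : M → E}

/-- The properties of the free space used below. -/
structure FS (p : ℝ) (o : M) (δ : M → E) : Prop where
  hp : 0 < p
  smul : ∀ (t : ℝ) (x : E), ‖t • x‖ = |t| ^ p * ‖x‖
  base : δ o = 0
  iso : ∀ a b, ‖δ a - δ b‖ = dist a b ^ p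
  dense : ∀ (y : E) (ε : ℝ), 0 < ε → ∃ z ∈ Submodule.span ℝ (Set.range δ), ‖y - z‖ < ε
  univ : ∀ (f : M → E) (L : ℝ), 0 ≤ L → f o = 0 → (∀ a b, ‖f a - f b‖ ≤ L * dist a b ^ p) →
    ∃ T : E →ₗ[ℝ] E, (∀ a, T (δ a) = f a) ∧ ∀ y, ‖T y‖ ≤ L * ‖y‖

lemma FS.smul_le (h : FS p o δ) {t : ℝ} (ht : |t| ≤ 1) (x : E) : ‖t • x‖ ≤ ‖x‖ := by
  rw [h.smul]
  exact mul_le_of_le_one_left (norm_nonneg x) (Real.rpow_le_one (abs_nonneg t) ht h.hp.le)

lemma FS.continuousSMul (h : FS p o δ) : ContinuousSMul ℝ E := by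
  refine ⟨continuous_iff_continuousAt.2 fun q => ?_⟩
  obtain ⟨t, x⟩ := q
  rw [ContinuousAt, tendsto_iff_norm_sub_tendsto_zero]
  have hb : ∀ q : ℝ × E, ‖q.1 • q.2 - t • x‖ ≤ |q.1| ^ p * ‖q.2 - x‖ + |q.1 - t| ^ p * ‖x‖ := by
    intro q
    have e : q.1 • q.2 - t • x = q.1 • (q.2 - x) + (q.1 - t) • x := by
      rw [smul_sub, sub_smul]; abel
    rw [e, ← h.smul, ← h.smul]
    exact norm_add_le _ _
  have hc : Continuous fun q : ℝ × E => |q.1| ^ p * ‖q.2 - x‖ + |q.1 - t| ^ p * ‖x‖ := by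
    refine Continuous.add (Continuous.mul ?_ (continuous_snd.sub continuous_const).norm)
      (Continuous.mul ?_ continuous_const)
    · exact continuous_fst.abs.rpow_const fun _ => Or.inr h.hp.le
    · exact (continuous_fst.sub continuous_const).abs.rpow_const fun _ => Or.inr h.hp.le
  have ht := hc.tendsto (t, x)
  simp only [sub_self, norm_zero, mul_zero, abs_zero, Real.zero_rpow h.hp.ne', zero_mul,
    add_zero] at ht
  exact squeeze_zero (fun _ => norm_nonneg _) hb ht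

/-- A slowly varying radial weight gives an almost contractive map. -/
lemma FS.weight_lip (h : FS p o δ) (w : ℝ → ℝ) (hw : ∀ t, |w t| ≤ 1) {η : ℝ} (hη : 0 ≤ η)
    (hl : ∀ s t, 0 ≤ s → s ≤ t → |w t - w s| * s ≤ η * (t - s)) (x0 x y : M) :
    ‖w (dist x x0) • (δ x - δ x0) - w (dist y x0) • (δ y - δ x0)‖ ≤ (1 + η ^ p) * dist x y ^ p := by
  wlog hxy : dist y x0 ≤ dist x x0 generalizing x y
  · rw [norm_sub_rev, dist_comm x y]
    exact this y x (le_of_not_ge hxy)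
  have e : w (dist x x0) • (δ x - δ x0) - w (dist y x0) • (δ y - δ x0) =
      w (dist x x0) • (δ x - δ y) + (w (dist x x0) - w (dist y x0)) • (δ y - δ x0) := by
    simp only [smul_sub, sub_smul]; abel
  rw [e]
  refine le_trans (norm_add_le _ _) ?_
  have h1 : ‖w (dist x x0) • (δ x - δ y)‖ ≤ dist x y ^ p := by
    rw [← h.iso]; exact h.smul_le (hw _) _
  have h2 : ‖(w (dist x x0) - w (dist y x0)) • (δ y - δ x0)‖ ≤ η ^ p * dist x y ^ p := by
    rw [h.smul, h.iso, ← Real.mul_rpow (abs_nonneg _) dist_nonneg,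
      ← Real.mul_rpow hη dist_nonneg]
    refine Real.rpow_le_rpow (by positivity) (le_trans (hl _ _ dist_nonneg hxy) ?_) h.hp.le
    refine mul_le_mul_of_nonneg_left ?_ hη
    linarith [dist_triangle x y x0]
  linarith

lemma exists_rpow_le (hp : 0 < p) {η : ℝ} (hη : 0 < η) : ∃ s : ℝ, 0 < s ∧ s ^ p ≤ η :=
  ⟨η ^ p⁻¹, Real.rpow_pos_of_pos hη _, (Real.rpow_inv_rpow hη.le hp.ne').le⟩

/-- An almost contractive operator close to the identity that has finite rank over `U`. -/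
def Col (δ : M → E) (η : ℝ) (U : Set M) : Prop :=
  ∃ (T : E →ₗ[ℝ] E) (F : Submodule ℝ E) (w : M → ℝ), FiniteDimensional ℝ F ∧
    (∀ y, ‖T y‖ ≤ (1 + η) * ‖y‖) ∧ (∀ x, ‖T (δ x) - δ x‖ ≤ η) ∧
    (∀ x, T (δ x) - w x • δ x ∈ F) ∧ ∀ x ∈ U, w x = 0

omit [MetricSpace M] in
lemma Col.mono {η η' : ℝ} {U : Set M} (h : Col δ η U) (hη : η ≤ η') : Col δ η' U := by
  obtain ⟨T, F, w, h1, h2, h3, h4, h5⟩ := h
  exact ⟨T, F, w, h1, fun y => le_trans (h2 y)
    (mul_le_mul_of_nonneg_right (by linarith) (norm_nonneg y)), fun x => le_trans (h3 x) hη, h4, h5⟩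

omit [MetricSpace M] in
lemma Col.empty {η : ℝ} (hη : 0 ≤ η) : Col δ η ∅ := by
  refine ⟨LinearMap.id, ⊥, fun _ => 1, inferInstance, fun y => ?_, fun x => ?_, fun x => ?_,
    fun x hx => hx.elim⟩
  · simp only [LinearMap.id_coe, id_eq]
    nlinarith [norm_nonneg y]
  · simpa using hη
  · simp

omit [MetricSpace M] in
lemma Col.union {η1 η2 : ℝ} {U1 U2 : Set M} (h1 : Col δ η1 U1) (h2 : Col δ η2 U2)
    (hη : 0 ≤ η2) : Col δ (η1 + η2 + η1 * η2) (U1 ∪ U2) := by
  obtain ⟨T, F, w, a1, a2, a3, a4, a5⟩ := h1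
  obtain ⟨T', F', w', b1, b2, b3, b4, b5⟩ := h2
  refine ⟨T' ∘ₗ T, F.map T' ⊔ F', fun x => w x * w' x, inferInstance, fun y => ?_, fun x => ?_,
    fun x => ?_, ?_⟩
  · refine le_trans (b2 _) (le_trans (mul_le_mul_of_nonneg_left (a2 y) (by linarith)) ?_)
    exact le_of_eq (by ring)
  · have e : (T' ∘ₗ T) (δ x) - δ x = T' (T (δ x) - δ x) + (T' (δ x) - δ x) := by
      rw [map_sub, LinearMap.comp_apply]; abel
    rw [e]
    refine le_trans (norm_add_le _ _) ?_
    have := le_trans (b2 (T (δ x) - δ x)) (mul_le_mul_of_nonneg_left (a3 x) (by linarith))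
    linarith [b3 x]
  · have e : (T' ∘ₗ T) (δ x) - (w x * w' x) • δ x =
        T' (T (δ x) - w x • δ x) + w x • (T' (δ x) - w' x • δ x) := by
      rw [map_sub, map_smul, LinearMap.comp_apply, smul_sub, mul_smul]; abel
    rw [e]
    exact Submodule.add_mem _ (Submodule.mem_sup_left (Submodule.mem_map_of_mem (a4 x)))
      (Submodule.mem_sup_right (Submodule.smul_mem _ _ (b4 x)))
  · rintro x (hx | hx)
    · show w x * w' x = 0
      rw [a5 x hx, zero_mul]
    · show w x * w' x = 0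
      rw [b5 x hx, mul_zero]

/-- Collapse of a small ball to its centre. -/
lemma FS.collapse (h : FS p o δ) (x0 : M) {η : ℝ} (hη : 0 < η) :
    ∃ r : ℝ, 0 < r ∧ Col δ η (ball x0 r) := by
  obtain ⟨s, hs, hsη⟩ := exists_rpow_le h.hp hη
  obtain ⟨ρ, hρ, hρη⟩ := exists_rpow_le h.hp (half_pos hη)
  obtain ⟨c, hc, hcut⟩ := exists_cut hs
  have hc0 : 0 < c := lt_of_lt_of_le one_pos hc
  obtain ⟨g, g0, g1, g2, g3, g4⟩ := hcut (ρ / c) (div_pos hρ hc0)
  rw [mul_div_cancel₀ _ hc0.ne'] at g3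
  have hw : ∀ t, |g t| ≤ 1 := fun t => by rw [abs_of_nonneg (g0 t)]; exact g1 t
  obtain ⟨T, hT1, hT2⟩ := h.univ
    (fun x => g (dist x x0) • (δ x - δ x0) - g (dist o x0) • (δ o - δ x0)) (1 + s ^ p)
    (by positivity) (sub_self _) (fun a b => by
      rw [sub_sub_sub_cancel_right]
      exact h.weight_lip g hw hs.le g4 x0 a b)
  have key : ∀ x, ‖(g (dist x x0) - 1) • (δ x - δ x0)‖ ≤ η / 2 := by
    intro x
    rcases le_total ρ (dist x x0) with hx | hx
    · rw [g3 _ hx, sub_self, zero_smul, norm_zero]; exact (half_pos hη).le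
    · refine le_trans (h.smul_le ?_ _) ?_
      · rw [abs_le]; constructor <;> linarith [g0 (dist x x0), g1 (dist x x0)]
      · rw [h.iso]
        exact le_trans (Real.rpow_le_rpow dist_nonneg hx h.hp.le) hρη
  refine ⟨ρ / c, div_pos hρ hc0, T, Submodule.span ℝ {δ x0}, fun x => g (dist x x0), inferInstance,
    fun y => le_trans (hT2 y) (mul_le_mul_of_nonneg_right (by linarith) (norm_nonneg y)),
    fun x => ?_, fun x => ?_, fun x hx => g2 _ (mem_ball.1 hx).le⟩
  · have e : T (δ x) - δ x = (g (dist x x0) - 1) • (δ x - δ x0) -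
        (g (dist o x0) - 1) • (δ o - δ x0) := by
      rw [hT1, h.base]; simp only [smul_sub, sub_smul, one_smul, smul_zero]; abel
    rw [e]
    refine le_trans (norm_sub_le _ _) ?_
    linarith [key x, key o]
  · have e : T (δ x) - g (dist x x0) • δ x = (g (dist o x0) - g (dist x x0)) • δ x0 := by
      rw [hT1, h.base]; simp only [smul_sub, sub_smul, smul_zero]; abel
    rw [e]
    exact Submodule.smul_mem _ _ (Submodule.subset_span rfl)

/-- The set `A` can be collapsed. -/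
def PP (δ : M → E) (A : Set M) : Prop :=
  ∀ η : ℝ, 0 < η → ∃ U : Set M, IsOpen U ∧ A ⊆ U ∧ Col δ η U

lemma PP.mono {A B : Set M} (hAB : A ⊆ B) (h : PP δ B) : PP δ A := fun η hη =>
  let ⟨U, h1, h2, h3⟩ := h η hη
  ⟨U, h1, hAB.trans h2, h3⟩

lemma PP.empty : PP δ ∅ := fun _ hη => ⟨∅, isOpen_empty, Subset.rfl, Col.empty hη.le⟩

lemma third_le {η : ℝ} (hη : 0 < η) : ∃ θ : ℝ, 0 < θ ∧ θ + θ + θ * θ ≤ η := by
  refine ⟨min 1 (η / 3), lt_min one_pos (by positivity), ?_⟩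
  have h1 := min_le_left 1 (η / 3)
  have h2 := min_le_right 1 (η / 3)
  have h3 : 0 < min 1 (η / 3) := lt_min one_pos (by positivity)
  nlinarith

lemma PP.union {A B : Set M} (hA : PP δ A) (hB : PP δ B) : PP δ (A ∪ B) := by
  intro η hη
  obtain ⟨θ, hθ, hθη⟩ := third_le hη
  obtain ⟨U, h1, h2, h3⟩ := hA θ hθ
  obtain ⟨V, k1, k2, k3⟩ := hB θ hθ
  exact ⟨U ∪ V, h1.union k1, union_subset_union h2 k2, (h3.union k3 hθ.le).mono hθη⟩

lemma FS.pp_point (h : FS p o δ) {A : Set M} (x0 : M) (hA : ∀ r, 0 < r → PP δ (A \ ball x0 r)) :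
    PP δ A := by
  intro η hη
  obtain ⟨θ, hθ, hθη⟩ := third_le hη
  obtain ⟨r, hr, hc⟩ := h.collapse x0 hθ
  obtain ⟨U, h1, h2, h3⟩ := hA r hr θ hθ
  refine ⟨U ∪ ball x0 r, h1.union isOpen_ball, fun x hx => ?_, (h3.union hc hθ.le).mono hθη⟩
  by_cases hb : x ∈ ball x0 r
  · exact Or.inr hb
  · exact Or.inl (h2 ⟨hx, hb⟩)

lemma pp_of_local {K : Set M} (hK : IsCompact K)
    (hl : ∀ x ∈ K, ∃ ρ, 0 < ρ ∧ PP δ (K ∩ ball x ρ)) : PP δ K := by
  refine hK.induction_on PP.empty (fun _ _ => PP.mono) (fun _ _ => PP.union) fun x hx => ?_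
  obtain ⟨ρ, hρ, h⟩ := hl x hx
  exact ⟨K ∩ ball x ρ, inter_mem_nhdsWithin _ (ball_mem_nhds x hρ), h⟩

/-- Countable compact sets can be collapsed. -/
lemma FS.pp_countable [CompleteSpace M] (h : FS p o δ) {A : Set M} (hA : IsCompact A)
    (hc : A.Countable) : PP δ A := by
  refine pp_of_local hA ?_
  by_contra hne
  set B : Set M := {x | x ∈ A ∧ ∀ ρ, 0 < ρ → ¬ PP δ (A ∩ ball x ρ)} with hB
  have hBne : B.Nonempty := by
    push Not at hne
    obtain ⟨x, hx, hx'⟩ := hne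
    exact ⟨x, hx, hx'⟩
  have hcl : IsClosed B := by
    refine isClosed_of_closure_subset fun x hx => ?_
    refine ⟨hA.isClosed.closure_subset (closure_mono (fun z hz => hz.1) hx), fun ρ hρ hP => ?_⟩
    obtain ⟨z, hz, hxz⟩ := Metric.mem_closure_iff.1 hx (ρ / 2) (half_pos hρ)
    refine hz.2 (ρ / 2) (half_pos hρ) (hP.mono (inter_subset_inter_right _ fun v hv => ?_))
    rw [mem_ball] at hv ⊢
    rw [dist_comm] at hxz
    linarith [dist_triangle v z x]
  have hpre : Preperfect B := by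
    rw [preperfect_iff_nhds]
    intro x0 hx0 U hU
    by_contra hiso
    obtain ⟨ρ, hρ, hρU⟩ := Metric.mem_nhds_iff.1 hU
    refine hx0.2 (ρ / 2) (half_pos hρ) (PP.mono (inter_subset_inter_right _ ball_subset_closedBall)
      (h.pp_point x0 fun r hr => pp_of_local
        ((hA.inter_right isClosed_closedBall).diff isOpen_ball) fun x hx => ?_))
    have hxB : x ∉ B := fun hxB => hiso ⟨x, ⟨hρU (closedBall_subset_ball (half_lt_self hρ) hx.1.2),
      hxB⟩, fun e => hx.2 (by rw [e]; exact mem_ball_self hr)⟩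
    by_contra hno
    exact hxB ⟨hx.1.1, fun σ hσ hP => hno ⟨σ, hσ, hP.mono
      (inter_subset_inter_left _ fun v hv => hv.1.1)⟩⟩
  obtain ⟨f, hf, -, hinj⟩ := Perfect.exists_nat_bool_injection ⟨hcl, hpre⟩ hBne
  have h1 : (range f).Countable := hc.mono fun z hz => (hf hz).1
  have h2 : Countable (ℕ → Bool) := by
    rw [← image_univ] at h1
    exact Set.countable_univ_iff.1 ((countable_of_injective_of_countable_image hinj.injOn h1))
  obtain ⟨u, hu⟩ := exists_surjective_nat (ℕ → Bool)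
  obtain ⟨n, hn⟩ := hu fun n => !(u n n)
  have h3 := congrFun hn n
  simp at h3

/-- Approximation on a compact set from approximation at finitely many points. -/
lemma FS.bounded_approx (h : FS p o δ) {K : Set E} (hK : IsCompact K) {ε C : ℝ} (hε : 0 < ε)
    (hC : 0 ≤ C) : ∃ (S : Set M) (η : ℝ), S.Finite ∧ 0 < η ∧ ∀ T : E →ₗ[ℝ] E,
      (∀ y, ‖T y‖ ≤ C * ‖y‖) → (∀ x ∈ S, ‖T (δ x) - δ x‖ ≤ η) → ∀ y ∈ K, ‖T y - y‖ ≤ ε := by
  have hspan : ∀ z ∈ Submodule.span ℝ (Set.range δ), ∀ θ : ℝ, 0 < θ →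
      ∃ (S : Set M) (η : ℝ), S.Finite ∧ 0 < η ∧ ∀ T : E →ₗ[ℝ] E,
        (∀ x ∈ S, ‖T (δ x) - δ x‖ ≤ η) → ‖T z - z‖ ≤ θ := by
    intro z hz
    induction hz using Submodule.span_induction with
    | mem z hz =>
      obtain ⟨a, rfl⟩ := hz
      exact fun θ hθ => ⟨{a}, θ, finite_singleton a, hθ, fun T hT => hT a rfl⟩
    | zero => exact fun θ hθ => ⟨∅, 1, finite_empty, one_pos, fun T _ => by simpa using hθ.le⟩
    | add y z _ _ hy hz =>
      intro θ hθ
      obtain ⟨S, η, a1, a2, a3⟩ := hy (θ / 2) (half_pos hθ)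
      obtain ⟨S', η', b1, b2, b3⟩ := hz (θ / 2) (half_pos hθ)
      refine ⟨S ∪ S', min η η', a1.union b1, lt_min a2 b2, fun T hT => ?_⟩
      have e : T (y + z) - (y + z) = (T y - y) + (T z - z) := by rw [map_add]; abel
      rw [e]
      refine le_trans (norm_add_le _ _) ?_
      linarith [a3 T fun x hx => le_trans (hT x (Or.inl hx)) (min_le_left _ _),
        b3 T fun x hx => le_trans (hT x (Or.inr hx)) (min_le_right _ _)]
    | smul t z _ hz =>
      intro θ hθ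
      have h0 : 0 ≤ |t| ^ p := Real.rpow_nonneg (abs_nonneg t) p
      obtain ⟨S, η, a1, a2, a3⟩ := hz (θ / (|t| ^ p + 1)) (by positivity)
      refine ⟨S, η, a1, a2, fun T hT => ?_⟩
      rw [map_smul, ← smul_sub, h.smul]
      refine le_trans (mul_le_mul_of_nonneg_left (a3 T hT) h0) ?_
      rw [mul_div_assoc', div_le_iff₀ (by positivity)]
      nlinarith
  refine hK.induction_on (p := fun K => ∃ (S : Set M) (η : ℝ), S.Finite ∧ 0 < η ∧
    ∀ T : E →ₗ[ℝ] E, (∀ y, ‖T y‖ ≤ C * ‖y‖) → (∀ x ∈ S, ‖T (δ x) - δ x‖ ≤ η) →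
      ∀ y ∈ K, ‖T y - y‖ ≤ ε) ⟨∅, 1, finite_empty, one_pos, fun _ _ _ y hy => hy.elim⟩ ?_ ?_ ?_
  · rintro s t hst ⟨S, η, a1, a2, a3⟩
    exact ⟨S, η, a1, a2, fun T h1 h2 y hy => a3 T h1 h2 y (hst hy)⟩
  · rintro s t ⟨S, η, a1, a2, a3⟩ ⟨S', η', b1, b2, b3⟩
    refine ⟨S ∪ S', min η η', a1.union b1, lt_min a2 b2, fun T h1 h2 y hy => ?_⟩
    rcases hy with hy | hy
    · exact a3 T h1 (fun x hx => le_trans (h2 x (Or.inl hx)) (min_le_left _ _)) y hy
    · exact b3 T h1 (fun x hx => le_trans (h2 x (Or.inr hx)) (min_le_right _ _)) y hy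
  · intro y _
    have hθ : 0 < ε / 2 / (C + 1) := by positivity
    obtain ⟨z, hz, hyz⟩ := h.dense y _ hθ
    obtain ⟨S, η, a1, a2, a3⟩ := hspan z hz (ε / 2) (half_pos hε)
    refine ⟨ball z (ε / 2 / (C + 1)), mem_nhdsWithin_of_mem_nhds (isOpen_ball.mem_nhds
      (by rwa [mem_ball, dist_eq_norm])), S, η, a1, a2, fun T h1 h2 v hv => ?_⟩
    rw [mem_ball, dist_eq_norm] at hv
    have e : T v - v = T (v - z) + (T z - z) - (v - z) := by rw [map_sub]; abel
    rw [e]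
    have h3 := norm_sub_le (T (v - z) + (T z - z)) (v - z)
    have h4 := norm_add_le (T (v - z)) (T z - z)
    have h5 : (C + 1) * ‖v - z‖ ≤ ε / 2 := by
      rw [lt_div_iff₀ (by positivity)] at hv
      linarith
    linarith [h1 (v - z), a3 T h2]

/-- An operator bounded for the group norm that sends the generators into a finite-dimensional
subspace has finite rank. -/
lemma FS.finite_rank (h : FS p o δ) (T : E →ₗ[ℝ] E) {C : ℝ} (hT : ∀ y, ‖T y‖ ≤ C * ‖y‖)
    (F : Submodule ℝ E) [FiniteDimensional ℝ F] (hF : ∀ x, T (δ x) ∈ F) :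
    FiniteDimensional ℝ (LinearMap.range T) := by
  have := h.continuousSMul
  have hcl : IsClosed (F : Set E) := F.closed_of_finiteDimensional
  have hc : Continuous T := AddMonoidHomClass.continuous_of_bound T C hT
  refine Submodule.finiteDimensional_of_le (S₂ := F) ?_
  rintro _ ⟨y, rfl⟩
  have h1 : (Submodule.span ℝ (Set.range δ) : Set E) ⊆ T ⁻¹' F := by
    have : Submodule.span ℝ (Set.range δ) ≤ F.comap T :=
      Submodule.span_le.2 (by rintro _ ⟨x, rfl⟩; exact hF x)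
    exact this
  refine (hcl.preimage hc).closure_subset (closure_mono h1 (Metric.mem_closure_iff.2 ?_))
  intro ε hε
  obtain ⟨z, hz, hyz⟩ := h.dense y ε hε
  exact ⟨z, hz, by rwa [dist_eq_norm]⟩

/-- Truncation to a bounded part of the space. -/
lemma FS.truncate (h : FS p o δ) {η r : ℝ} (hη : 0 < η) (hr : 0 < r) :
    ∃ (ρ : ℝ) (k : M → ℝ) (T : E →ₗ[ℝ] E), 0 < ρ ∧ (∀ x, T (δ x) = k x • δ x) ∧
      (∀ y, ‖T y‖ ≤ (1 + η) * ‖y‖) ∧ (∀ x, |k x| ≤ 1) ∧ (∀ x, dist x o ≤ r → k x = 1) ∧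
      ∀ x, ρ ≤ dist x o → k x = 0 := by
  obtain ⟨s, hs, hsη⟩ := exists_rpow_le h.hp hη
  obtain ⟨c, hc, hcut⟩ := exists_cut hs
  obtain ⟨g, g0, g1, g2, g3, g4⟩ := hcut r hr
  have hw : ∀ t, |1 - g t| ≤ 1 := fun t => by
    rw [abs_le]; constructor <;> linarith [g0 t, g1 t]
  obtain ⟨T, hT1, hT2⟩ := h.univ (fun x => (1 - g (dist x o)) • δ x) (1 + s ^ p)
    (by positivity) (by rw [h.base, smul_zero]) (fun a b => by
      have := h.weight_lip (fun t => 1 - g t) hw hs.le (fun s t h1 h2 => by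
        rw [sub_sub_sub_cancel_left, abs_sub_comm]; exact g4 s t h1 h2) o a b
      rwa [h.base, sub_zero, sub_zero] at this)
  refine ⟨c * r, fun x => 1 - g (dist x o), T, by positivity, hT1, fun y => le_trans (hT2 y)
    (mul_le_mul_of_nonneg_right (by linarith) (norm_nonneg y)), fun x => hw _, fun x hx => ?_,
    fun x hx => ?_⟩
  · show 1 - g (dist x o) = 1
    rw [g2 _ hx, sub_zero]
  · show 1 - g (dist x o) = 0
    rw [g3 _ hx, sub_self]

/-- The metric approximation property over a countable proper space. -/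
lemma FS.map [ProperSpace M] [Countable M] (h : FS p o δ) {K : Set E} (hK : IsCompact K) {ε : ℝ}
    (hε : 0 < ε) : ∃ T : E →ₗ[ℝ] E, (∀ y, ‖T y‖ ≤ ‖y‖) ∧
      FiniteDimensional ℝ (LinearMap.range T) ∧ ∀ y ∈ K, ‖T y - y‖ ≤ ε := by
  obtain ⟨S, η, hS, hη, hap⟩ := h.bounded_approx hK hε zero_le_one
  obtain ⟨r, hr, hSr⟩ := hS.isBounded.subset_closedBall_lt 0 o
  have hrp : 0 < r ^ p := Real.rpow_pos_of_pos hr p
  obtain ⟨s, hs, hsη⟩ := exists_rpow_le h.hp (show 0 < η / 2 / r ^ p by positivity)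
  obtain ⟨κ, hκ0, hκ1, hκs⟩ : ∃ κ : ℝ, 0 < κ ∧ κ < 1 ∧ 1 - κ ≤ s :=
    ⟨1 - min s (1 / 2), by linarith [min_le_right s (1 / 2)],
      by linarith [lt_min hs (show (0 : ℝ) < 1 / 2 by norm_num)], by linarith [min_le_left s (1 / 2)]⟩
  have hκp0 : 0 < κ ^ p := Real.rpow_pos_of_pos hκ0 p
  have hκp : κ ^ p < 1 := Real.rpow_lt_one hκ0.le hκ1 h.hp
  have hinv : 0 < (κ ^ p)⁻¹ - 1 := sub_pos.2 ((one_lt_inv₀ hκp0).2 hκp)
  obtain ⟨θ, hθ, hθη⟩ := third_le (lt_min (half_pos hη) hinv)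
  have hθ1 : θ ≤ η / 2 := by nlinarith [min_le_left (η / 2) ((κ ^ p)⁻¹ - 1)]
  have hθ2 : κ ^ p * ((1 + θ) * (1 + θ)) ≤ 1 := by
    have h1 : (1 + θ) * (1 + θ) ≤ (κ ^ p)⁻¹ := by
      nlinarith [min_le_right (η / 2) ((κ ^ p)⁻¹ - 1)]
    have h2 := mul_le_mul_of_nonneg_left h1 hκp0.le
    rwa [mul_inv_cancel₀ hκp0.ne'] at h2
  obtain ⟨ρ, k, T0, -, a1, a2, -, a4, a5⟩ := h.truncate hθ hr
  obtain ⟨U, -, hU, T1, F, w, b1, b2, b3, b4, b5⟩ :=
    h.pp_countable (isCompact_closedBall o ρ) (Set.to_countable _) θ hθ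
  have hb : ∀ y, ‖(κ • (T1 ∘ₗ T0)) y‖ ≤ 1 * ‖y‖ := by
    intro y
    rw [LinearMap.smul_apply, LinearMap.comp_apply, h.smul, abs_of_pos hκ0]
    have h1 := le_trans (b2 (T0 y)) (mul_le_mul_of_nonneg_left (a2 y) (by linarith))
    refine le_trans (mul_le_mul_of_nonneg_left h1 hκp0.le) ?_
    rw [← mul_assoc, ← mul_assoc, mul_assoc (κ ^ p)]
    exact mul_le_mul_of_nonneg_right hθ2 (norm_nonneg y)
  refine ⟨κ • (T1 ∘ₗ T0), fun y => by simpa using hb y, h.finite_rank _ hb F fun x => ?_,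
    hap _ hb fun x hx => ?_⟩
  · rw [LinearMap.smul_apply, LinearMap.comp_apply, a1, map_smul]
    rcases le_total ρ (dist x o) with hx | hx
    · rw [a5 x hx, zero_smul, smul_zero]; exact F.zero_mem
    · have := b4 x
      rw [b5 x (hU (mem_closedBall.2 hx)), zero_smul, sub_zero] at this
      exact F.smul_mem _ (F.smul_mem _ this)
  · have hxr : dist x o ≤ r := mem_closedBall.1 (hSr hx)
    have e : (κ • (T1 ∘ₗ T0)) (δ x) - δ x = κ • (T1 (δ x) - δ x) - (1 - κ) • (δ x - δ o) := by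
      rw [LinearMap.smul_apply, LinearMap.comp_apply, a1, a4 x hxr, one_smul, h.base, sub_zero,
        smul_sub, sub_smul, one_smul]
      abel
    rw [e]
    refine le_trans (norm_sub_le _ _) ?_
    have h1 : ‖κ • (T1 (δ x) - δ x)‖ ≤ θ :=
      le_trans (h.smul_le (by rw [abs_of_pos hκ0]; exact hκ1.le) _) (b3 x)
    have h2 : ‖(1 - κ) • (δ x - δ o)‖ ≤ η / 2 := by
      rw [h.smul, h.iso, abs_of_pos (sub_pos.2 hκ1)]
      have h3 : (1 - κ) ^ p ≤ η / 2 / r ^ p :=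
        le_trans (Real.rpow_le_rpow (sub_pos.2 hκ1).le hκs h.hp.le) hsη
      have h4 : dist x o ^ p ≤ r ^ p := Real.rpow_le_rpow dist_nonneg hxr h.hp.le
      calc _ ≤ η / 2 / r ^ p * r ^ p :=
            mul_le_mul h3 h4 (Real.rpow_nonneg dist_nonneg p) (by positivity)
        _ = η / 2 := div_mul_cancel₀ _ hrp.ne'
    linarith

end Pool.Agent.Work.MP_f25c59_an.Hedge
end

-- merged part: Pool.Agent.Work.MP_f25c59_an.Hedge.Bridge
section
/-!
Passage between the `p`-norm and the group norm given by its `p`-th power.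
-/

set_option autoImplicit false

namespace Pool.Agent.Work.MP_f25c59_an.Hedge

open Filter Topology Metric Set

variable {p : ℝ} {M : Type} [MetricSpace M] {o : M} {Y : Type} [AddCommGroup Y] [Module ℝ Y]
  {N : Y → ℝ} {δ : M → Y}

lemma fs_of_isFree [hp : Fact (0 < p)] (h : IsFree p o N δ) :
    FS (E := PN h.1) p o δ := by
  have hp0 := hp.out
  refine ⟨hp0, PN.norm_smul h.1, h.2.1, fun a b => ?_, fun y ε hε => ?_, ?_⟩
  · rw [← h.2.2.1 a b]; rfl
  · obtain ⟨z, hz, hyz⟩ := h.2.2.2.1 y (ε ^ p⁻¹) (Real.rpow_pos_of_pos hε _)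
    refine ⟨z, hz, ?_⟩
    have := Real.rpow_lt_rpow (h.1.nonneg _) hyz hp0
    rw [Real.rpow_inv_rpow hε.le hp0.ne'] at this
    exact this
  · intro f L hL hf hlip
    have hL' : 0 ≤ L ^ p⁻¹ := Real.rpow_nonneg hL _
    have key : ∀ a b, N ((show Y from f a) - (show Y from f b)) ≤ L ^ p⁻¹ * dist a b := by
      intro a b
      rw [← Real.rpow_le_rpow_iff (h.1.nonneg _) (mul_nonneg hL' dist_nonneg) hp0,
        Real.mul_rpow hL' dist_nonneg, Real.rpow_inv_rpow hL hp0.ne']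
      exact hlip a b
    obtain ⟨T, hT1, hT2, -⟩ := h.2.2.2.2 Y N h.1 f hf ⟨_, key⟩
    refine ⟨T, hT1, fun y => ?_⟩
    have h1 := Real.rpow_le_rpow (h.1.nonneg _) ((hT2 _ hL').2 key y) hp0.le
    rw [Real.mul_rpow hL' (h.1.nonneg _), Real.rpow_inv_rpow hL hp0.ne'] at h1
    exact h1

lemma isCompact_of_isCompactFor [hp : Fact (0 < p)] (h : IsPBanach p N) {K : Set Y}
    (hK : IsCompactFor N K) : IsCompact (X := PN h) K := by
  refine IsSeqCompact.isCompact fun u hu => ?_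
  obtain ⟨x, hx, φ, hφ, hlim⟩ := hK u hu
  refine ⟨x, hx, φ, hφ, ?_⟩
  rw [tendsto_iff_norm_sub_tendsto_zero]
  have h1 := hlim.rpow_const (p := p) (Or.inr hp.out.le)
  rw [Real.zero_rpow hp.out.ne'] at h1
  exact h1

theorem hasMAP_of_proper (hp : 0 < p) [ProperSpace M] [Countable M] (h : IsFree p o N δ) :
    HasMAP N := by
  have : Fact (0 < p) := ⟨hp⟩
  intro K hK ε hε
  obtain ⟨T, h1, h2, h3⟩ := (fs_of_isFree h).map (isCompact_of_isCompactFor h.1 hK)
    (Real.rpow_pos_of_pos (half_pos hε) p)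
  refine ⟨T, fun x => ?_, h2, fun x hx => lt_of_le_of_lt ?_ (half_lt_self hε)⟩
  · exact (Real.rpow_le_rpow_iff (h.1.nonneg _) (h.1.nonneg _) hp).1 (h1 x)
  · exact (Real.rpow_le_rpow_iff (h.1.nonneg _) (half_pos hε).le hp).1 (h3 x hx)

end Pool.Agent.Work.MP_f25c59_an.Hedge
end
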