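import Pool.Agent.Work.MP_f25c59_an.Hedge.Bridge

/-!
The approximation property over spaces whose completion has only countable compact subsets.
-/

set_option autoImplicit false

namespace Pool.Agent.Work.MP_f25c59_an.Hedge

open Filter Topology Metric Set

section Abstract

variable {p : ℝ} {M : Type} [MetricSpace M] {o : M} {E : Type} [NormedAddCommGroup E]
  [Module ℝ E] {δ : M → E}

/-- Local control: the norm of the image of a molecule only depends on finitely many points. -/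
def LC (p : ℝ) (δ : M → E) (D : Submodule ℝ E) : Prop :=
  ∀ w ∈ D, ∀ θ : ℝ, 0 < θ → ∃ S : Set M, S.Finite ∧
    ∀ (T : E →ₗ[ℝ] E) (L : ℝ), 0 ≤ L →
      (∀ a ∈ S, ∀ b ∈ S, ‖T (δ a) - T (δ b)‖ ≤ L * dist a b ^ p) → ‖T w‖ ≤ L * (‖w‖ + θ)

lemma nets (o : M) {D0 : Submodule ℝ E} (hD0 : ∀ (y : E) (ε : ℝ), 0 < ε → ∃ z ∈ D0, ‖y - z‖ < ε)
    (hLC : LC p δ D0) {K : Set E} (hK : IsCompact K) (L : ℕ → ℝ)
    (hL : ∀ j, 0 ≤ L j) {ε : ℝ} (hε : 0 < ε) :
    ∃ S : ℕ → Set M, (∀ j, (S j).Finite) ∧ Monotone S ∧ o ∈ S 0 ∧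
      ∀ T : E →ₗ[ℝ] E, Continuous T → (∀ x ∈ S 0, T (δ x) = 0) →
        (∀ j, ∀ a ∈ S j, ∀ b ∈ S j, ‖T (δ a) - T (δ b)‖ ≤ L j * dist a b ^ p) →
        ∀ y ∈ K, ‖T y‖ ≤ ε := by
  obtain ⟨e, he0, he1, he2, he3⟩ : ∃ e : ℕ → ℝ, (∀ j, 0 < e j) ∧
      (∀ j, e j ≤ ε * (1 / 2) ^ j) ∧ (∀ j, L j * e j ≤ ε * (1 / 2) ^ j / 6) ∧
      ∀ j, L (j + 1) * e j ≤ ε * (1 / 2) ^ j / 6 := by
    have hpos : ∀ j, 0 < 1 + L j + L (j + 1) := fun j => by linarith [hL j, hL (j + 1)]
    have hq : ∀ j : ℕ, 0 < ε * (1 / 2) ^ j / 6 := fun j => by positivity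
    refine ⟨fun j => ε * (1 / 2) ^ j / 6 / (1 + L j + L (j + 1)), fun j => div_pos (hq j) (hpos j),
      fun j => ?_, fun j => ?_, fun j => ?_⟩
    · refine le_trans (div_le_self (hq j).le (by linarith [hL j, hL (j + 1)])) ?_
      linarith [hq j]
    · rw [mul_div_assoc', div_le_iff₀ (hpos j), mul_comm]
      exact mul_le_mul_of_nonneg_left (by linarith [hL (j + 1)]) (hq j).le
    · rw [mul_div_assoc', div_le_iff₀ (hpos j), mul_comm]
      exact mul_le_mul_of_nonneg_left (by linarith [hL j]) (hq j).le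
  have hZ : ∀ j, ∃ Z : Set E, Z ⊆ D0 ∧ Z.Finite ∧
      K ⊆ ⋃ z ∈ Z, ball z (e j) := by
    intro j
    refine hK.elim_finite_subcover_image (fun _ _ => isOpen_ball) fun y _ => ?_
    obtain ⟨z, hz, hyz⟩ := hD0 y (e j) (he0 j)
    exact mem_iUnion₂.2 ⟨z, hz, by rwa [mem_ball, dist_eq_norm]⟩
  choose Z hZ1 hZ2 hZ3 using hZ
  have hS : ∀ (w : E) (θ : ℝ), ∃ S : Set M, S.Finite ∧
      (w ∈ D0 → 0 < θ → ∀ (T : E →ₗ[ℝ] E) (L : ℝ), 0 ≤ L →
        (∀ a ∈ S, ∀ b ∈ S, ‖T (δ a) - T (δ b)‖ ≤ L * dist a b ^ p) → ‖T w‖ ≤ L * (‖w‖ + θ)) := by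
    intro w θ
    by_cases hw : w ∈ D0 ∧ 0 < θ
    · obtain ⟨S, h1, h2⟩ := hLC w hw.1 θ hw.2
      exact ⟨S, h1, fun _ _ => h2⟩
    · exact ⟨∅, finite_empty, fun h1 h2 => (hw ⟨h1, h2⟩).elim⟩
  choose Sf hSf1 hSf2 using hS
  let D : ℕ → Set M := fun j => Nat.casesOn j (insert o (⋃ z ∈ Z 0, Sf z 1))
    fun i => ⋃ z ∈ Z i, ⋃ z' ∈ Z (i + 1), Sf (z' - z) (e i)
  have hD : ∀ j, (D j).Finite := by
    intro j
    cases j with
    | zero => exact ((hZ2 0).biUnion fun z _ => hSf1 z 1).insert o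
    | succ i => exact (hZ2 i).biUnion fun z _ => (hZ2 (i + 1)).biUnion fun z' _ => hSf1 _ _
  have hDS : ∀ j, D j ⊆ ⋃ i ∈ Iic j, D i := fun j => subset_biUnion_of_mem (u := D) (le_refl j)
  refine ⟨fun j => ⋃ i ∈ Iic j, D i, fun j => (finite_Iic j).biUnion fun i _ => hD i,
    fun j k hjk => biUnion_subset_biUnion_left (Iic_subset_Iic.2 hjk),
    hDS 0 (mem_insert _ _), fun T hT h0 hlip y hy => ?_⟩
  have hz : ∀ j, ∃ z ∈ Z j, ‖y - z‖ < e j := by
    intro j
    obtain ⟨z, hz, hyz⟩ := mem_iUnion₂.1 (hZ3 j hy)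
    exact ⟨z, hz, by rwa [mem_ball, dist_eq_norm] at hyz⟩
  choose z hz1 hz2 using hz
  have hind : ∀ n, ‖T (z n)‖ ≤ ε - ε * (1 / 2) ^ n := by
    intro n
    induction n with
    | zero =>
      have hsub : Sf (z 0) 1 ⊆ ⋃ i ∈ Iic 0, D i := fun a ha =>
        hDS 0 (mem_insert_of_mem _ (mem_biUnion (hz1 0) ha))
      have := hSf2 (z 0) 1 (hZ1 0 (hz1 0)) one_pos T 0 le_rfl fun a ha b hb => by
        rw [h0 a (hsub ha), h0 b (hsub hb)]; simp
      simpa using this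
    | succ n ih =>
      have hsub : Sf (z (n + 1) - z n) (e n) ⊆ ⋃ i ∈ Iic (n + 1), D i := fun a ha =>
        hDS (n + 1) (mem_biUnion (hz1 n) (mem_biUnion (hz1 (n + 1)) ha))
      have h1 := hSf2 (z (n + 1) - z n) (e n)
        (Submodule.sub_mem _ (hZ1 _ (hz1 (n + 1))) (hZ1 _ (hz1 n))) (he0 n) T (L (n + 1)) (hL _)
        fun a ha b hb => hlip (n + 1) a (hsub ha) b (hsub hb)
      have h2 : ‖z (n + 1) - z n‖ ≤ e n + e (n + 1) := by
        have e1 : z (n + 1) - z n = (y - z n) - (y - z (n + 1)) := by abel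
        rw [e1]
        exact le_trans (norm_sub_le _ _) (add_le_add (hz2 n).le (hz2 (n + 1)).le)
      have h3 : T (z (n + 1)) = T (z n) + T (z (n + 1) - z n) := by rw [map_sub]; abel
      have h4 := mul_le_mul_of_nonneg_left (add_le_add_left h2 (e n)) (hL (n + 1))
      have h5 := he2 (n + 1)
      have h6 := he3 n
      have h7 : 0 < ε * (1 / 2) ^ n := by positivity
      rw [h3]
      refine le_trans (norm_add_le _ _) ?_
      rw [pow_succ] at h5 ⊢
      nlinarith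
  have hlim : Tendsto z atTop (𝓝 y) := by
    rw [tendsto_iff_norm_sub_tendsto_zero]
    have h1 : Tendsto (fun n : ℕ => ε * (1 / 2 : ℝ) ^ n) atTop (𝓝 (ε * 0)) :=
      (tendsto_pow_atTop_nhds_zero_of_lt_one (by norm_num) (by norm_num)).const_mul ε
    rw [mul_zero] at h1
    refine squeeze_zero (fun _ => norm_nonneg _) (fun n => ?_) h1
    rw [norm_sub_rev]
    exact le_trans (hz2 n).le (he1 n)
  refine le_of_tendsto' ((hT.tendsto y).comp hlim).norm fun n => le_trans (hind n) ?_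
  have : 0 < ε * (1 / 2 : ℝ) ^ n := by positivity
  linarith

lemma subseq_near [CompleteSpace M] (S : ℕ → Set M) (hS : ∀ i, (S i).Finite)
    (hne : ∀ i, (S i).Nonempty) (x : ℕ → M)
    (hx : ∀ i n : ℕ, i ≤ n → ((i : ℝ) + 1) * infDist (x n) (S i) ≤ 1) :
    ∃ y, (∀ i : ℕ, ((i : ℝ) + 1) * infDist y (S i) ≤ 1) ∧ ∃ φ : ℕ → ℕ, StrictMono φ ∧
      Tendsto (x ∘ φ) atTop (𝓝 y) := by
  have htb : TotallyBounded (range x) := by
    refine Metric.totallyBounded_iff.2 fun ε hε => ?_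
    obtain ⟨i, hi⟩ := exists_nat_one_div_lt hε
    refine ⟨S i ∪ x '' Iio i, (hS i).union ((finite_Iio i).image x), ?_⟩
    rintro _ ⟨n, rfl⟩
    rcases lt_or_ge n i with hn | hn
    · exact mem_biUnion (Or.inr ⟨n, hn, rfl⟩) (mem_ball_self hε)
    · have h1 : infDist (x n) (S i) < ε := by
        refine lt_of_le_of_lt ?_ hi
        rw [le_div_iff₀ (by positivity), mul_comm]
        exact hx i n hn
      obtain ⟨s, hs, hd⟩ := (infDist_lt_iff (hne i)).1 h1
      exact mem_biUnion (Or.inl hs) hd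
  obtain ⟨y, -, φ, hφ, hlim⟩ := (htb.closure.isCompact_of_isClosed isClosed_closure).tendsto_subseq
    (x := x) fun n => subset_closure (mem_range_self n)
  refine ⟨y, fun i => ?_, φ, hφ, hlim⟩
  have h1 : Tendsto (fun n => ((i : ℝ) + 1) * infDist (x (φ n)) (S i)) atTop
      (𝓝 (((i : ℝ) + 1) * infDist y (S i))) :=
    (((continuous_infDist_pt (S i)).tendsto y).comp hlim).const_mul _
  refine le_of_tendsto h1 (eventually_atTop.2 ⟨i, fun n hn => hx i _ (le_trans hn (hφ.id_le n))⟩)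

lemma FS.ap [CompleteSpace M] (hM : ∀ A : Set M, IsCompact A → A.Countable) (h : FS p o δ)
    {D0 : Submodule ℝ E} (hD0 : ∀ (y : E) (ε : ℝ), 0 < ε → ∃ z ∈ D0, ‖y - z‖ < ε)
    (hLC : LC p δ D0) {K : Set E} (hK : IsCompact K) {ε : ℝ} (hε : 0 < ε) :
    ∃ T : E →ₗ[ℝ] E, (∃ C : ℝ, 0 ≤ C ∧ ∀ y, ‖T y‖ ≤ C * ‖y‖) ∧
      FiniteDimensional ℝ (LinearMap.range T) ∧ ∀ y ∈ K, ‖T y - y‖ ≤ ε := by
  obtain ⟨S', η, hS', hη, hap⟩ := h.bounded_approx hK (half_pos hε) (show (0 : ℝ) ≤ 4 by norm_num)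
  obtain ⟨r, hr, hSr⟩ := hS'.isBounded.subset_closedBall_lt 0 o
  obtain ⟨ρ, k, T0, hρ, a1, a2, a3, a4, a5⟩ := h.truncate one_pos hr
  let Λ : ℕ → ℝ := fun j => ∑ i ∈ Finset.range j, ((i : ℝ) + 1)
  have hΛ : ∀ j, 0 ≤ Λ j := fun j => Finset.sum_nonneg fun i _ => by positivity
  have hL : ∀ j, 0 ≤ 2 + (Λ j * ρ) ^ p := fun j =>
    add_nonneg zero_le_two (Real.rpow_nonneg (mul_nonneg (hΛ j) hρ.le) p)
  obtain ⟨S, s1, s2, s3, s4⟩ := nets o hD0 hLC hK (fun j => 2 + (Λ j * ρ) ^ p) hL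
    (show 0 < ε / 4 by positivity)
  have hne : ∀ i, (S i).Nonempty := fun i => ⟨o, s2 (Nat.zero_le i) s3⟩
  have hA : IsCompact {x : M | ∀ i : ℕ, ((i : ℝ) + 1) * infDist x (S i) ≤ 1} :=
    IsSeqCompact.isCompact fun x hx => subseq_near S s1 hne x fun i n _ => hx n i
  obtain ⟨U, hUo, hU, T1, F, w, b1, b2, b3, b4, b5⟩ :=
    h.pp_countable hA (hM _ hA) (min η 1) (lt_min hη one_pos)
  have b2' : ∀ y, ‖T1 y‖ ≤ 2 * ‖y‖ := fun y => le_trans (b2 y)
    (mul_le_mul_of_nonneg_right (by linarith [min_le_right η 1]) (norm_nonneg y))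
  obtain ⟨J, hJ⟩ : ∃ J : ℕ, ∀ x, x ∉ U → ∃ i : ℕ, i ≤ J ∧ 1 < ((i : ℝ) + 1) * infDist x (S i) := by
    by_contra hno
    push Not at hno
    choose x hx1 hx2 using hno
    obtain ⟨y, hy, φ, -, hlim⟩ := subseq_near S s1 hne x fun i n hi => hx2 n i hi
    obtain ⟨n, hn⟩ := (hlim.eventually (hUo.mem_nhds (hU hy))).exists
    exact hx1 _ hn
  let u : M → ℝ := fun x => min 1 (∑ i ∈ Finset.range (J + 1), ((i : ℝ) + 1) * infDist x (S i))
  have hterm : ∀ (i : ℕ) (x : M), 0 ≤ ((i : ℝ) + 1) * infDist x (S i) := fun i x =>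
    mul_nonneg (by positivity) infDist_nonneg
  have u1 : ∀ x, |u x| ≤ 1 := fun x => by
    rw [abs_of_nonneg (le_min zero_le_one (Finset.sum_nonneg fun i _ => hterm i x))]
    exact min_le_left _ _
  have u2 : ∀ x ∈ S 0, u x = 0 := fun x hx => by
    have : ∑ i ∈ Finset.range (J + 1), ((i : ℝ) + 1) * infDist x (S i) = 0 :=
      Finset.sum_eq_zero fun i _ => by
        rw [infDist_zero_of_mem (s2 (Nat.zero_le i) hx), mul_zero]
    simp only [u, this]
    exact min_eq_right zero_le_one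
  have u3 : ∀ x, x ∉ U → u x = 1 := fun x hx => by
    obtain ⟨i, hi, hlt⟩ := hJ x hx
    exact min_eq_left (le_trans hlt.le (Finset.single_le_sum (fun i _ => hterm i x)
      (Finset.mem_range.2 (Nat.lt_succ_of_le hi))))
  have hc : ∀ (i : ℕ) (a b : M), |((i : ℝ) + 1) * infDist a (S i) - ((i : ℝ) + 1) * infDist b (S i)|
      ≤ ((i : ℝ) + 1) * dist a b := by
    intro i a b
    rw [← mul_sub, abs_mul, abs_of_nonneg (by positivity : (0 : ℝ) ≤ (i : ℝ) + 1)]
    refine mul_le_mul_of_nonneg_left (abs_le.2 ⟨?_, ?_⟩) (by positivity)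
    · have := infDist_le_infDist_add_dist (x := b) (y := a) (s := S i)
      rw [dist_comm] at this
      linarith
    · linarith [infDist_le_infDist_add_dist (x := a) (y := b) (s := S i)]
  have u4 : ∀ a b, |u a - u b| ≤ ∑ i ∈ Finset.range (J + 1),
      |((i : ℝ) + 1) * infDist a (S i) - ((i : ℝ) + 1) * infDist b (S i)| := by
    intro a b
    refine le_trans (abs_min_sub_min_le_max _ _ _ _) (max_le ?_ ?_)
    · rw [sub_self, abs_zero]; exact Finset.sum_nonneg fun i _ => abs_nonneg _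
    · rw [← Finset.sum_sub_distrib]; exact Finset.abs_sum_le_sum_abs _ _
  have u5 : ∀ (j : ℕ) (a b : M), ∑ i ∈ Finset.range j,
      |((i : ℝ) + 1) * infDist a (S i) - ((i : ℝ) + 1) * infDist b (S i)| ≤ Λ j * dist a b := by
    intro j a b
    rw [Finset.sum_mul]
    exact Finset.sum_le_sum fun i _ => hc i a b
  have u6 : ∀ j, ∀ a ∈ S j, ∀ b ∈ S j, |u a - u b| ≤ Λ j * dist a b := by
    intro j a ha b hb
    refine le_trans (u4 a b) (le_trans ?_ (u5 j a b))
    refine le_trans (Finset.sum_le_sum_of_subset_of_nonneg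
      (Finset.range_mono (Nat.le_add_right (J + 1) j)) fun i _ _ => abs_nonneg _) (le_of_eq ?_)
    refine (Finset.sum_subset (Finset.range_mono (Nat.le_add_left j (J + 1))) fun i _ hi => ?_).symm
    have hji : j ≤ i := Nat.le_of_not_lt fun hlt => hi (Finset.mem_range.2 hlt)
    rw [infDist_zero_of_mem (s2 hji ha), infDist_zero_of_mem (s2 hji hb), sub_self, abs_zero]
  have hlip : ∀ (Λ0 : ℝ) (a b : M), 0 ≤ Λ0 → |u a - u b| ≤ Λ0 * dist a b →
      ‖u a • T0 (δ a) - u b • T0 (δ b)‖ ≤ (2 + (Λ0 * ρ) ^ p) * dist a b ^ p := by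
    intro Λ0 a b h0 hab
    have e : u a • T0 (δ a) - u b • T0 (δ b) = u a • T0 (δ a - δ b) + (u a - u b) • T0 (δ b) := by
      rw [map_sub, smul_sub, sub_smul]; abel
    have h1 : ‖u a • T0 (δ a - δ b)‖ ≤ 2 * dist a b ^ p := by
      refine le_trans (h.smul_le (u1 a) _) (le_trans (a2 _) (le_of_eq ?_))
      rw [h.iso]; norm_num
    have h2 : ‖T0 (δ b)‖ ≤ ρ ^ p := by
      rw [a1]
      rcases le_total ρ (dist b o) with hb | hb
      · rw [a5 b hb, zero_smul, norm_zero]; exact Real.rpow_nonneg hρ.le p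
      · refine le_trans (h.smul_le (a3 b) _) ?_
        have := h.iso b o
        rw [h.base, sub_zero] at this
        rw [this]
        exact Real.rpow_le_rpow dist_nonneg hb h.hp.le
    have h3 : ‖(u a - u b) • T0 (δ b)‖ ≤ (Λ0 * ρ) ^ p * dist a b ^ p := by
      rw [h.smul, Real.mul_rpow h0 hρ.le, mul_right_comm, ← Real.mul_rpow h0 dist_nonneg]
      exact mul_le_mul (Real.rpow_le_rpow (abs_nonneg _) hab h.hp.le) h2 (norm_nonneg _)
        (Real.rpow_nonneg (mul_nonneg h0 dist_nonneg) p)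
    rw [e]
    refine le_trans (norm_add_le _ _) ?_
    linarith
  obtain ⟨V, v1, v2⟩ := h.univ (fun x => u x • T0 (δ x)) (2 + (Λ (J + 1) * ρ) ^ p) (hL _)
    (by rw [h.base, map_zero, smul_zero])
    fun a b => hlip _ a b (hΛ _) (le_trans (u4 a b) (u5 _ a b))
  have hV : ∀ y ∈ K, ‖V y‖ ≤ ε / 4 := s4 V (AddMonoidHomClass.continuous_of_bound V _ v2)
    (fun x hx => by rw [v1, u2 x hx, zero_smul])
    fun j a ha b hb => by rw [v1, v1]; exact hlip _ a b (hΛ j) (u6 j a ha b hb)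
  have hb : ∀ y, ‖(T1 ∘ₗ (T0 - V)) y‖ ≤ (2 * (2 + (2 + (Λ (J + 1) * ρ) ^ p))) * ‖y‖ := by
    intro y
    rw [LinearMap.comp_apply, LinearMap.sub_apply]
    linarith [b2' (T0 y - V y), norm_sub_le (T0 y) (V y), a2 y, v2 y]
  refine ⟨T1 ∘ₗ (T0 - V), ⟨_, by linarith [hL (J + 1)], hb⟩, h.finite_rank _ hb F fun x => ?_,
    fun y hy => ?_⟩
  · rw [LinearMap.comp_apply, LinearMap.sub_apply, v1]
    by_cases hx : x ∈ U
    · have := b4 x
      rw [b5 x hx, zero_smul, sub_zero] at this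
      rw [a1, map_sub, map_smul, map_smul, map_smul]
      exact F.sub_mem (F.smul_mem _ this) (F.smul_mem _ (F.smul_mem _ this))
    · rw [u3 x hx, one_smul, sub_self, map_zero]; exact F.zero_mem
  · have h1 := hap (T1 ∘ₗ T0) (fun y => by
      rw [LinearMap.comp_apply]; linarith [b2' (T0 y), a2 y]) (fun x hx => by
      rw [LinearMap.comp_apply, a1, a4 x (mem_closedBall.1 (hSr hx)), one_smul]
      exact le_trans (b3 x) (min_le_left _ _)) y hy
    have e : (T1 ∘ₗ (T0 - V)) y - y = ((T1 ∘ₗ T0) y - y) - T1 (V y) := by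
      rw [LinearMap.comp_apply, LinearMap.sub_apply, map_sub, LinearMap.comp_apply]; abel
    rw [e]
    linarith [norm_sub_le ((T1 ∘ₗ T0) y - y) (T1 (V y)), b2' (V y), hV y hy]

omit [Module ℝ E] in
lemma uniformContinuous_of_bound (hp : 0 < p) (f : M → E) {L : ℝ} (hL : 0 ≤ L)
    (hf : ∀ a b, ‖f a - f b‖ ≤ L * dist a b ^ p) : UniformContinuous f := by
  refine Metric.uniformContinuous_iff.2 fun ε hε => ?_
  obtain ⟨s, hs, hsε⟩ := exists_rpow_le hp (show 0 < ε / (L + 1) by positivity)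
  refine ⟨s, hs, fun {a b} hab => ?_⟩
  rw [dist_eq_norm]
  have h1 : dist a b ^ p ≤ ε / (L + 1) := le_trans (Real.rpow_le_rpow dist_nonneg hab.le hp.le) hsε
  refine lt_of_le_of_lt (le_trans (hf a b) (mul_le_mul_of_nonneg_left h1 hL)) ?_
  rw [mul_div_assoc', div_lt_iff₀ (by positivity)]
  nlinarith

/-- The free space over a metric space is also the free space over its completion. -/
lemma FS.completion [CompleteSpace E] (h : FS p o δ) : ∃ δ' : UniformSpace.Completion M → E,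
    (∀ a : M, δ' a = δ a) ∧ FS p (o : UniformSpace.Completion M) δ' := by
  have huc : UniformContinuous δ := uniformContinuous_of_bound h.hp δ zero_le_one fun a b => by
    rw [one_mul]; exact (h.iso a b).le
  have hc : Continuous (UniformSpace.Completion.extension δ) :=
    UniformSpace.Completion.continuous_extension
  have hcoe : ∀ a : M, UniformSpace.Completion.extension δ (a : UniformSpace.Completion M) = δ a :=
    UniformSpace.Completion.extension_coe huc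
  refine ⟨UniformSpace.Completion.extension δ, hcoe, h.hp, h.smul, by rw [hcoe, h.base], ?_, ?_, ?_⟩
  · intro a b
    induction a, b using UniformSpace.Completion.induction_on₂ with
    | hp =>
      exact isClosed_eq ((hc.comp continuous_fst).sub (hc.comp continuous_snd)).norm
        (continuous_dist.rpow_const fun _ => Or.inr h.hp.le)
    | ih a b => rw [hcoe, hcoe, h.iso, UniformSpace.Completion.dist_eq]
  · intro y ε hε
    obtain ⟨z, hz, hyz⟩ := h.dense y ε hε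
    refine ⟨z, Submodule.span_mono ?_ hz, hyz⟩
    rintro _ ⟨a, rfl⟩
    exact ⟨a, hcoe a⟩
  · intro f L hL hf hlip
    obtain ⟨T, hT1, hT2⟩ := h.univ (fun a => f a) L hL hf fun a b => by
      rw [← UniformSpace.Completion.dist_eq]; exact hlip _ _
    refine ⟨T, fun a => ?_, hT2⟩
    induction a using UniformSpace.Completion.induction_on with
    | hp =>
      exact isClosed_eq ((AddMonoidHomClass.continuous_of_bound T L hT2).comp hc)
        (uniformContinuous_of_bound h.hp f hL hlip).continuous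
    | ih a => rw [hcoe, hT1]

lemma LC.completion {D : Submodule ℝ E} (h : LC p δ D) {δ' : UniformSpace.Completion M → E}
    (hδ : ∀ a : M, δ' a = δ a) : LC p δ' D := by
  intro w hw θ hθ
  obtain ⟨S, h1, h2⟩ := h w hw θ hθ
  refine ⟨(fun a : M => (a : UniformSpace.Completion M)) '' S, h1.image _, fun T L hL hT => ?_⟩
  refine h2 T L hL fun a ha b hb => ?_
  rw [← hδ, ← hδ, ← UniformSpace.Completion.dist_eq]
  exact hT _ ⟨a, ha, rfl⟩ _ ⟨b, hb, rfl⟩

end Abstract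

variable {p : ℝ} {M : Type} [MetricSpace M] {o : M} {Y : Type} [AddCommGroup Y] [Module ℝ Y]
  {N : Y → ℝ} {δ : M → Y}

lemma lc_of_isFree [hp : Fact (0 < p)] [hp1 : Fact (p ≤ 1)] (h : IsFree p o N δ) :
    LC (E := PN h.1) p δ (Submodule.span ℝ (Set.range δ)) := by
  have hp0 := hp.out
  have hfs := fs_of_isFree h
  have hlip : ∀ a b, freeN p o (freeδ p o a - freeδ p o b) ≤ 1 * dist a b := fun a b => by
    rw [one_mul]; exact freeδ_le p o a b
  obtain ⟨J, hJ1, hJ2, -⟩ := h.2.2.2.2 (FreeP p o) (freeN p o) (freeN_isPBanach p o) (freeδ p o)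
    (freeδ_base p o) ⟨1, hlip⟩
  have hJ : ∀ y : PN h.1, ‖J y‖ ≤ ‖y‖ := by
    intro y
    have h1 := (hJ2 1 zero_le_one).2 hlip y
    rw [one_mul] at h1
    rw [← freeN_rpow]
    exact Real.rpow_le_rpow (freeN_nonneg p o _) h1 hp0.le
  obtain ⟨R, hR, -⟩ := free_extend p o (X := PN h.1) (PN.norm_smul h.1) δ h.2.1 1 zero_le_one
    fun a b => by rw [one_mul]; exact (hfs.iso a b).le
  have hRq : ∀ q : (M × M) →₀ ℝ, R (toFree p o q) =
      ∑ ab ∈ q.support, q ab • ((show PN h.1 from δ ab.1) - (show PN h.1 from δ ab.2)) := by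
    intro q
    have e : R ∘ₗ toFree p o = Finsupp.linearCombination ℝ
        fun ab : M × M => (show PN h.1 from δ ab.1) - (show PN h.1 from δ ab.2) := by
      refine Finsupp.lhom_ext' fun ab => LinearMap.ext_ring ?_
      have e1 : R (toFree p o (pr p ab.1 ab.2)) =
          (show PN h.1 from δ ab.1) - (show PN h.1 from δ ab.2) := by
        rw [toFree_pr, map_sub, hR, hR]
      refine e1.trans ?_
      simp
    exact LinearMap.congr_fun e q
  intro w hw θ hθ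
  have hw' : ∃ q : Q p M, toFree p o q = J w ∧ R (J w) = w := by
    induction hw using Submodule.span_induction with
    | mem z hz =>
      obtain ⟨a, rfl⟩ := hz
      exact ⟨pr p a o, (hJ1 a).symm, by rw [hJ1, hR]⟩
    | zero => exact ⟨0, by rw [map_zero]; exact (map_zero J).symm, by
        rw [show J (0 : PN h.1) = 0 from map_zero J, map_zero]⟩
    | add y z _ _ hy hz =>
      obtain ⟨q, h1, h2⟩ := hy
      obtain ⟨q', k1, k2⟩ := hz
      have e : J (y + z) = J y + J z := map_add J y z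
      exact ⟨q + q', by rw [map_add, h1, k1, e], by rw [e, map_add, h2, k2]⟩
    | smul t z _ hz =>
      obtain ⟨q, h1, h2⟩ := hz
      have e : J (t • z) = t • J z := map_smul J t z
      exact ⟨t • q, by rw [map_smul, h1, e], by rw [e, map_smul, h2]⟩
  obtain ⟨q0, hq0, hRJ⟩ := hw'
  obtain ⟨m, hm1, hm2⟩ := Submodule.Quotient.norm_mk_lt
    (Submodule.Quotient.mk q0 : Mol0 p o) hθ
  have hm3 : toFree p o m = J w := by
    rw [← hq0]
    show ((Submodule.Quotient.mk m : Mol0 p o) : FreeP p o) = _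
    rw [hm1]
    rfl
  have hm4 : ‖(Submodule.Quotient.mk q0 : Mol0 p o)‖ ≤ ‖w‖ := by
    rw [← UniformSpace.Completion.norm_coe]
    have h1 := hJ w
    rw [← hq0] at h1
    exact h1
  have hm5 : cost p m ≤ ‖w‖ + θ := by
    rw [← Q.norm_def]; linarith
  have hm6 := hRq m
  rw [hm3, hRJ] at hm6
  refine ⟨Prod.fst '' ((show (M × M) →₀ ℝ from m).support : Set (M × M)) ∪
    Prod.snd '' ((show (M × M) →₀ ℝ from m).support : Set (M × M)),
    ((Finset.finite_toSet _).image _).union ((Finset.finite_toSet _).image _),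
    fun T L hL hT => le_trans ?_ (mul_le_mul_of_nonneg_left hm5 hL)⟩
  rw [hm6, map_sum, cost, Finset.mul_sum]
  refine le_trans (norm_sum_le _ _) (Finset.sum_le_sum fun ab hab => ?_)
  rw [map_smul, map_sub, PN.norm_smul, Real.mul_rpow (abs_nonneg _) dist_nonneg, mul_left_comm]
  exact mul_le_mul_of_nonneg_left (hT _ (Or.inl ⟨ab, hab, rfl⟩) _ (Or.inr ⟨ab, hab, rfl⟩))
    (Real.rpow_nonneg (abs_nonneg _) p)

theorem hasAP_of_scattered (hp : 0 < p) (hp1 : p ≤ 1)
    (hM : ∀ A : Set (UniformSpace.Completion M), IsCompact A → A.Countable)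
    (h : IsFree p o N δ) : HasAP N := by
  have : Fact (0 < p) := ⟨hp⟩
  have : Fact (p ≤ 1) := ⟨hp1⟩
  intro K hK ε hε
  obtain ⟨δ', hδ, hfs⟩ := (fs_of_isFree h).completion
  obtain ⟨T, ⟨C, hC, h1⟩, h2, h3⟩ := hfs.ap hM (fs_of_isFree h).dense
    ((lc_of_isFree h).completion hδ) (isCompact_of_isCompactFor h.1 hK)
    (Real.rpow_pos_of_pos (half_pos hε) p)
  have hC' : 0 ≤ C ^ p⁻¹ := Real.rpow_nonneg hC _
  refine ⟨T, ⟨C ^ p⁻¹, fun x => ?_⟩, h2, fun x hx => lt_of_le_of_lt ?_ (half_lt_self hε)⟩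
  · rw [← Real.rpow_le_rpow_iff (h.1.nonneg _) (mul_nonneg hC' (h.1.nonneg _)) hp,
      Real.mul_rpow hC' (h.1.nonneg _), Real.rpow_inv_rpow hC hp.ne']
    exact h1 x
  · exact (Real.rpow_le_rpow_iff (h.1.nonneg _) (half_pos hε).le hp).1 (h3 x hx)

end Pool.Agent.Work.MP_f25c59_an.Hedge
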